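import Pool.Agent.Lib.MP_069854_nt.Part04
namespace K3
open Complex MeasureTheory Filter Topology Set S6
open scoped Real ComplexConjugate

theorem k01_I2_limC {κ : ℝ} (hκ : 1 ≤ κ) (hK : KloosBound κ) {G : ℝ × ℝ × ℝ → ℝ} (hG : TF κ G)
    {ν : Measure E6} (hν : Lap ν) [SFinite ν] {c₀ c₁ c₂ l₀ : ℝ}
    (hq : ∀ l ≥ l₀, QB ν G l = c₀ + c₁ * l + c₂ * l ^ 2)
    {δ : ℝ} (hδ : 0 < δ) {τ : ℝ → ℝ} (hτ : ∀ T : ℝ, 1 ≤ T → δ * T ≤ τ T ∧ τ T ≤ T) :
    Tendsto (fun T : ℝ => I2 G T (τ T) / ((HH T * √π * Real.log T ^ 9 : ℝ) : ℂ)) atTop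
      (𝓝 ((MP069854.arith 3 * (c₀ + c₁ + c₂) : ℝ) : ℂ)) := by
  obtain ⟨P, hP⟩ := dual_data
  have hP' : DualData P := hP
  obtain ⟨l₁, l₂, l₃, hl1, hl12, hl23, n1, n2, n3⟩ := three_points ν (max 60 l₀)
  have g60 : (60 : ℝ) ≤ max 60 l₀ := le_max_left _ _
  have gl0 : l₀ ≤ max 60 l₀ := le_max_right _ _
  set A3 : ℝ := MP069854.arith 3 with hA3
  set a : ℝ → ℂ := fun T => ((Real.log T : ℝ) : ℂ)⁻¹ ^ 9 * Ac P G T with ha
  set b : ℝ → ℂ := fun T => -(((Real.log T : ℝ) : ℂ)⁻¹ ^ 8 * Bc P G T) with hb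
  set c : ℝ → ℂ := fun T => ((Real.log T : ℝ) : ℂ)⁻¹ ^ 7 * Cc P G T with hc
  have key : ∀ l : ℝ, max 60 l₀ < l → ν {p | ell p = l} = 0 →
      Tendsto (fun T => a T + b T * l + c T * l ^ 2) atTop
        (𝓝 ((A3 * c₀ : ℝ) + (A3 * c₁ : ℝ) * (l : ℂ) + (A3 * c₂ : ℝ) * (l : ℂ) ^ 2)) := by
    intro l hl hn
    have := E_side hκ hG hν hP' (by linarith : (60 : ℝ) ≤ l) hn
    rw [hq l (by linarith)] at this
    convert this using 2
    push_cast; ring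
  obtain ⟨ta, tb, tc⟩ := interp hl12.ne (hl12.trans hl23).ne hl23.ne (key l₁ hl1 n1)
    (key l₂ (by linarith) n2) (key l₃ (by linarith) n3)
  -- kernel constants
  obtain ⟨η, T₀, hη, hform⟩ := I2_formula hκ hK hG hP' hδ
  obtain ⟨C0, T₁, h0⟩ := K0_bound hδ
  obtain ⟨C1, T₂, h1⟩ := Ej_bound 1
  obtain ⟨C2, T₃, h2⟩ := Ej_bound 2
  have hN : Tendsto (fun T : ℝ => HH T * √π) atTop atTop :=
    HH_tendsto.atTop_mul_const sqrt_pi_pos
  have hlog := Real.tendsto_log_atTop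
  have hev : ∀ᶠ T : ℝ in atTop, Real.exp 1 ≤ T ∧ T₀ ≤ T ∧ T₁ ≤ T ∧ T₂ ≤ T ∧ T₃ ≤ T := by
    filter_upwards [eventually_ge_atTop (Real.exp 1), eventually_ge_atTop T₀, eventually_ge_atTop T₁,
      eventually_ge_atTop T₂, eventually_ge_atTop T₃] with T a b c d e
    exact ⟨a, b, c, d, e⟩
  have facts : ∀ T : ℝ, Real.exp 1 ≤ T → 1 < T ∧ 1 ≤ Real.log T ∧ 0 < HH T ∧ 0 < HH T * √π := by
    intro T hT
    have hT1 := one_lt_of_exp hT
    have hl : 1 ≤ Real.log T := by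
      rw [Real.le_log_iff_exp_le (by linarith)]; exact hT
    have hH : 0 < HH T := div_pos (by linarith) (by linarith)
    exact ⟨hT1, hl, hH, mul_pos hH sqrt_pi_pos⟩
  set e0 : ℝ → ℂ := fun T => 2 * π * Ej 0 T (τ T) / ((HH T * √π : ℝ) : ℂ) with he0
  set e1 : ℝ → ℂ := fun T => 2 * π * Ej 1 T (τ T) / ((HH T * √π * Real.log T : ℝ) : ℂ) with he1
  set e2 : ℝ → ℂ := fun T => 2 * π * Ej 2 T (τ T) / ((HH T * √π * Real.log T ^ 2 : ℝ) : ℂ) with he2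
  have t0 : Tendsto e0 atTop (𝓝 1) := by
    rw [← tendsto_sub_nhds_zero_iff, tendsto_zero_iff_norm_tendsto_zero]
    have hz : Tendsto (fun T : ℝ => C0 / (HH T * √π)) atTop (𝓝 0) := hN.const_div_atTop C0
    refine squeeze_zero' (Eventually.of_forall fun _ => norm_nonneg _) ?_ hz
    filter_upwards [hev] with T hT
    obtain ⟨hT1, hl, hH, hHp⟩ := facts T hT.1
    obtain ⟨d1, d2⟩ := hτ T hT1.le
    obtain ⟨-, hb0⟩ := h0 T hT.2.2.1 (τ T) d1 d2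
    have hHc : ((HH T * √π : ℝ) : ℂ) ≠ 0 := by exact_mod_cast hHp.ne'
    have e : e0 T - 1 = (2 * π * Ej 0 T (τ T) - ((HH T * √π : ℝ) : ℂ)) / ((HH T * √π : ℝ) : ℂ) := by
      simp only [he0]
      rw [sub_div, div_self hHc]
    rw [e, norm_div, Complex.norm_real, Real.norm_of_nonneg hHp.le]
    refine div_le_div_of_nonneg_right ?_ hHp.le
    have : Ej 0 T (τ T) = ∫ ξ : ℝ, ker T (τ T) ξ * (zz T ξ)⁻¹ := by
      unfold Ej; simp
    rw [this]; exact hb0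
  have tj : ∀ (j : ℕ), 1 ≤ j → ∀ C T' : ℝ, (∀ T ≥ T', ∀ τ, 0 ≤ τ → τ ≤ T → ‖Ej j T τ‖ ≤
      C * (HH T * √(Real.log T))) → Tendsto (fun T => 2 * π * Ej j T (τ T) /
        ((HH T * √π * Real.log T ^ j : ℝ) : ℂ)) atTop (𝓝 0) := by
    intro j hj C T' hC
    rw [tendsto_zero_iff_norm_tendsto_zero]
    have hz : Tendsto (fun T : ℝ => (2 * π * |C| / √π) * (√(Real.log T))⁻¹) atTop (𝓝 0) := by
      have := (tendsto_inv_atTop_zero.comp (Real.tendsto_sqrt_atTop.comp hlog)).const_mul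
        (2 * π * |C| / √π)
      rw [mul_zero] at this
      exact this
    refine squeeze_zero' (Eventually.of_forall fun _ => norm_nonneg _) ?_ hz
    filter_upwards [hev, eventually_ge_atTop T'] with T hT hT'
    obtain ⟨hT1, hl, hH, hHp⟩ := facts T hT.1
    obtain ⟨d1, d2⟩ := hτ T hT1.le
    have hτ0 : 0 ≤ τ T := le_trans (by positivity) d1
    have hb := hC T hT' (τ T) hτ0 d2
    have hlp : 0 < Real.log T := by linarith
    have hsp : 0 < √(Real.log T) := Real.sqrt_pos.2 hlp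
    rw [norm_div, norm_mul, norm_mul, Complex.norm_ofNat, Complex.norm_real, Complex.norm_real,
      Real.norm_of_nonneg Real.pi_pos.le, Real.norm_of_nonneg (by positivity)]
    have hjl : Real.log T ≤ Real.log T ^ j := le_self_pow₀ hl (by omega)
    calc 2 * π * ‖Ej j T (τ T)‖ / (HH T * √π * Real.log T ^ j)
        ≤ 2 * π * (|C| * (HH T * √(Real.log T))) / (HH T * √π * Real.log T) := by
          have := sqrt_pi_pos
          have hb' : ‖Ej j T (τ T)‖ ≤ |C| * (HH T * √(Real.log T)) :=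
            hb.trans (mul_le_mul_of_nonneg_right (le_abs_self C) (by positivity))
          gcongr
      _ = (2 * π * |C| / √π) * (√(Real.log T))⁻¹ := by
          have h3 : √(Real.log T) * √(Real.log T) = Real.log T := Real.mul_self_sqrt hlp.le
          have := sqrt_pi_pos
          field_simp
          rw [sq, h3]
  have t1 : Tendsto e1 atTop (𝓝 0) := by
    have := tj 1 le_rfl C1 T₂ (fun T hT τ h3 h4 => (h1 T hT τ h3 h4).2)
    simpa only [he1, pow_one] using this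
  have t2 : Tendsto e2 atTop (𝓝 0) :=
    tj 2 (by norm_num) C2 T₃ (fun T hT τ h3 h4 => (h2 T hT τ h3 h4).2)
  -- the error
  set er : ℝ → ℂ := fun T => (I2 G T (τ T) - 2 * π * ((Ac P G T - Bc P G T * Real.log T +
      Cc P G T * Real.log T ^ 2) * Ej 0 T (τ T) +
      (Bc P G T - 2 * Cc P G T * Real.log T) * Ej 1 T (τ T) + Cc P G T * Ej 2 T (τ T))) /
      ((HH T * √π * Real.log T ^ 9 : ℝ) : ℂ) with her
  have te : Tendsto er atTop (𝓝 0) := by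
    rw [tendsto_zero_iff_norm_tendsto_zero]
    have hz : Tendsto (fun T : ℝ => (√π)⁻¹ * T ^ (-η)) atTop (𝓝 0) := by
      have := (tendsto_rpow_neg_atTop hη).const_mul (√π)⁻¹
      rwa [mul_zero] at this
    refine squeeze_zero' (Eventually.of_forall fun _ => norm_nonneg _) ?_ hz
    filter_upwards [hev] with T hT
    obtain ⟨hT1, hl, hH, hHp⟩ := facts T hT.1
    obtain ⟨d1, d2⟩ := hτ T hT1.le
    have hb := hform T hT.2.1 (τ T) d1 d2
    have hTp : 0 < T := by linarith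
    have hlp : 0 < Real.log T := by linarith
    have hs := sqrt_pi_pos
    simp only [her]
    rw [norm_div, Complex.norm_real, Real.norm_of_nonneg (by positivity)]
    have h8 : 1 ≤ Real.log T ^ 8 := one_le_pow₀ hl
    calc _ ≤ T ^ (1 - η) / (HH T * √π * Real.log T ^ 9) :=
          div_le_div_of_nonneg_right hb (by positivity)
      _ = (√π)⁻¹ * T ^ (-η) / Real.log T ^ 8 := by
          have e : T ^ (1 - η) = T * T ^ (-η) := by
            rw [sub_eq_add_neg, Real.rpow_add hTp, Real.rpow_one]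
          rw [e]
          unfold HH
          field_simp
      _ ≤ (√π)⁻¹ * T ^ (-η) := div_le_self (by positivity) h8
  have hlim : Tendsto (fun T => (a T + b T + c T) * e0 T + (-b T - 2 * c T) * e1 T + c T * e2 T + er T)
      atTop (𝓝 (((A3 * c₀ : ℝ) + (A3 * c₁ : ℝ) + (A3 * c₂ : ℝ)) * 1 +
        (-((A3 * c₁ : ℝ) : ℂ) - 2 * ((A3 * c₂ : ℝ) : ℂ)) * 0 + ((A3 * c₂ : ℝ) : ℂ) * 0 + 0)) :=
    (((((ta.add tb).add tc).mul t0).add ((tb.neg.sub (tc.const_mul 2)).mul t1)).add (tc.mul t2)).add te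
  have hval : ((A3 * c₀ : ℝ) + (A3 * c₁ : ℝ) + (A3 * c₂ : ℝ)) * 1 +
        (-((A3 * c₁ : ℝ) : ℂ) - 2 * ((A3 * c₂ : ℝ) : ℂ)) * 0 + ((A3 * c₂ : ℝ) : ℂ) * 0 + 0 =
      ((A3 * (c₀ + c₁ + c₂) : ℝ) : ℂ) := by push_cast; ring
  rw [hval] at hlim
  refine hlim.congr' ?_
  filter_upwards [hev] with T hT
  obtain ⟨hT1, hl, hH, hHp⟩ := facts T hT.1
  have hlp : 0 < Real.log T := by linarith
  have hlc : ((Real.log T : ℝ) : ℂ) ≠ 0 := by exact_mod_cast hlp.ne'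
  have hHc : ((HH T : ℝ) : ℂ) ≠ 0 := by exact_mod_cast hH.ne'
  have hpc : ((√π : ℝ) : ℂ) ≠ 0 := by exact_mod_cast sqrt_pi_pos.ne'
  simp only [ha, hb, hc, he0, he1, he2, her]
  push_cast
  generalize ((Real.log T : ℝ) : ℂ) = L at hlc ⊢
  generalize ((HH T : ℝ) : ℂ) = H at hHc ⊢
  generalize ((√π : ℝ) : ℂ) = p at hpc ⊢
  field_simp
  ring

theorem k01_open (κ : ℝ) : IsOpen (Reg κ) := by
  have h1 : IsOpen {p : ℝ × ℝ × ℝ | 0 < p.2.1} := isOpen_lt continuous_const (by fun_prop)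
  have h2 : IsOpen {p : ℝ × ℝ × ℝ | p.2.1 < p.1} := isOpen_lt (by fun_prop) (by fun_prop)
  have h3 : IsOpen {p : ℝ × ℝ × ℝ | 0 < p.2.2} := isOpen_lt continuous_const (by fun_prop)
  have h4 : IsOpen {p : ℝ × ℝ × ℝ | κ * (p.1 + p.2.1) + p.2.2 < 1} :=
    isOpen_lt (by fun_prop) continuous_const
  have h5 : IsOpen {p : ℝ × ℝ × ℝ | p.1 + p.2.1 - p.2.2 < 1 / 2} :=
    isOpen_lt (by fun_prop) continuous_const
  exact h1.inter (h2.inter (h3.inter (h4.inter h5)))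

theorem k01_sub {κ : ℝ} (hκ : 1 ≤ κ) : Reg κ ⊆ Reg 1 := by
  rintro p ⟨a, b, c, d, e⟩
  have : 1 * (p.1 + p.2.1) ≤ κ * (p.1 + p.2.1) := mul_le_mul_of_nonneg_right hκ (by linarith)
  exact ⟨a, b, c, by linarith, e⟩

theorem k01_lim {κ : ℝ} (hκ : 1 ≤ κ) (hK : KloosBound κ) {Ψ : ℝ × ℝ × ℝ → ℝ} (h : SF (Reg κ) Ψ)
    {δ : ℝ} (hδ : 0 < δ) {τ : ℝ → ℝ} (hτ : ∀ T : ℝ, 1 ≤ T → δ * T ≤ τ T ∧ τ T ≤ T) :
    Tendsto (fun T : ℝ => I2 (GG Ψ) T (τ T) / ((HH T * √π * Real.log T ^ 9 : ℝ) : ℂ)) atTop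
      (𝓝 ((A3 * ∫ p, Ψ p * PP p : ℝ) : ℂ)) := by
  obtain ⟨s1, s2, s3⟩ := h
  have hTF : TF κ (GG Ψ) := TF_GG s1 s2 s3
  have hsR : ∀ p, Ψ p ≠ 0 → p ∈ Reg κ := fun p hp =>
    s3 (subset_tsupport _ (Function.mem_support.2 hp))
  have hs2 : ∀ p, Ψ p ≠ 0 → 0 < p.2.1 ∧ p.2.1 < p.1 ∧ 0 < p.2.2 ∧ p.1 + p.2.1 + p.2.2 < 1 := by
    intro p hp
    obtain ⟨a, b, c, d, -⟩ := hsR p hp
    have : 1 * (p.1 + p.2.1) ≤ κ * (p.1 + p.2.1) := mul_le_mul_of_nonneg_right hκ (by linarith)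
    exact ⟨a, b, c, by linarith⟩
  have hcont : Continuous Ψ := s1.continuous
  have hint : ∀ f : ℝ × ℝ × ℝ → ℝ, Continuous f → Integrable fun p => Ψ p * f p := fun f hf =>
    (hcont.mul hf).integrable_of_hasCompactSupport (s2.mul_right)
  set c₀ : ℝ := ∫ p : ℝ × ℝ × ℝ, Ψ p * ((p.1 - p.2.1) * (p.2.2 + p.1) * (p.2.2 + p.2.1) / 2) with hc0
  set c₁ : ℝ := ∫ p : ℝ × ℝ × ℝ, Ψ p * (-((p.1 - p.2.1) * (2 * p.2.2 + p.1 + p.2.1)) / 2) with hc1
  set c₂ : ℝ := ∫ p : ℝ × ℝ × ℝ, Ψ p * ((p.1 - p.2.1) / 2) with hc2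
  have i0 := hint (fun p => (p.1 - p.2.1) * (p.2.2 + p.1) * (p.2.2 + p.2.1) / 2) (by fun_prop)
  have i1 := hint (fun p => -((p.1 - p.2.1) * (2 * p.2.2 + p.1 + p.2.1)) / 2) (by fun_prop)
  have i2 := hint (fun p => (p.1 - p.2.1) / 2) (by fun_prop)
  have hpoly : ∀ l : ℝ, ∫ p : ℝ × ℝ × ℝ,
      Ψ p * ((p.1 - p.2.1) * (l - p.2.2 - p.1) * (l - p.2.2 - p.2.1) / 2) =
      c₀ + c₁ * l + c₂ * l ^ 2 := by
    intro l
    have i01 : Integrable fun p : ℝ × ℝ × ℝ =>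
        Ψ p * ((p.1 - p.2.1) * (p.2.2 + p.1) * (p.2.2 + p.2.1) / 2) +
        Ψ p * (-((p.1 - p.2.1) * (2 * p.2.2 + p.1 + p.2.1)) / 2) * l := i0.add (i1.mul_const l)
    rw [hc0, hc1, hc2, ← integral_mul_const, ← integral_mul_const, ← integral_add i0 (i1.mul_const l),
      ← integral_add i01 (i2.mul_const (l ^ 2))]
    refine integral_congr_ae (Eventually.of_forall fun p => ?_)
    ring
  have hq : ∀ l ≥ (3 : ℝ), QB nuB (GG Ψ) l = c₀ + c₁ * l + c₂ * l ^ 2 := fun l hl => by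
    rw [QB_GG s1 s2 hs2 hl, hpoly]
  have h1 := hpoly 1
  have hPP : ∫ p, Ψ p * PP p = c₀ + c₁ + c₂ := by
    rw [mul_one, one_pow, mul_one] at h1
    rw [← h1]
    rfl
  have t2 := k01_I2_limC hκ hK hTF lapB hq hδ hτ
  rw [← hPP] at t2
  exact t2

theorem goodReg_of_kloos {κ : ℝ} (hκ : 1 ≤ κ) (hK : KloosBound κ) : GoodReg (Reg κ) := by
  refine ⟨k01_open κ, k01_sub hκ, ?_⟩
  intro Ψ h δ hδ τ hτ
  rcases le_or_gt δ 1 with hδ1 | hδ1
  · classical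
    set τ' : ℝ → ℝ := fun T => if δ * T ≤ τ T ∧ τ T ≤ T then τ T else T with hτ'
    have hb : ∀ T : ℝ, 1 ≤ T → δ * T ≤ τ' T ∧ τ' T ≤ T := by
      intro T hT
      simp only [hτ']
      split_ifs with hc
      · exact hc
      · exact ⟨by nlinarith, le_rfl⟩
    have := k01_lim hκ hK h hδ hb
    refine this.congr' ?_
    filter_upwards [hτ] with T hT
    have : τ' T = τ T := by simp only [hτ']; rw [if_pos hT]
    rw [this, NN]
  · exfalso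
    obtain ⟨T, ⟨h1, h2⟩, h3⟩ := (hτ.and (eventually_gt_atTop (0 : ℝ))).exists
    nlinarith

end K3
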